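import Pool.Agent.Y766.R10.Stm

/-!
# Project R10: logarithmic means of the Moebius function with a coprimality condition
-/

set_option autoImplicit false

namespace Pool.Agent.Y279.R10

open Finset

/-- `∑ j ≤ N, μ(j)/j ∑ m ≤ N/j, 1/m = 1` -/
lemma conv_one (N : ℕ) (hN : 1 ≤ N) :
    ∑ j ∈ Ioc 0 N, (ArithmeticFunction.moebius j : ℝ) / j * ∑ m ∈ Ioc 0 (N / j), (1 : ℝ) / m = 1 := by
  let f : ArithmeticFunction ℝ := ⟨fun j => (ArithmeticFunction.moebius j : ℝ) / j, by simp⟩
  let g : ArithmeticFunction ℝ := ⟨fun j => (1 : ℝ) / j, by simp⟩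
  have h1 := ArithmeticFunction.sum_Ioc_mul_eq_sum_sum f g N
  have h2 : ∀ n ∈ Ioc 0 N, (f * g) n = if n = 1 then 1 else 0 := by
    intro n hn
    rw [Finset.mem_Ioc] at hn
    rw [ArithmeticFunction.mul_apply]
    have h3 : ∀ x ∈ n.divisorsAntidiagonal, f x.1 * g x.2 =
        (ArithmeticFunction.moebius x.1 : ℝ) * (1 / n) := by
      intro x hx
      rw [Nat.mem_divisorsAntidiagonal] at hx
      show (ArithmeticFunction.moebius x.1 : ℝ) / x.1 * (1 / x.2) = _
      have h4 : (n : ℝ) = x.1 * x.2 := by exact_mod_cast hx.1.symm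
      rw [h4, one_div, one_div, mul_inv, div_eq_mul_inv]
      ring
    rw [Finset.sum_congr rfl h3, ← Finset.sum_mul,
      Nat.sum_divisorsAntidiagonal (fun a _ => (ArithmeticFunction.moebius a : ℝ))]
    have h5 : ∑ i ∈ n.divisors, (ArithmeticFunction.moebius i : ℝ) = if n = 1 then 1 else 0 := by
      have h6 := congrArg (fun F : ArithmeticFunction ℤ => F n)
        ArithmeticFunction.moebius_mul_coe_zeta
      simp only [ArithmeticFunction.coe_mul_zeta_apply] at h6
      have h7 : ((∑ i ∈ n.divisors, ArithmeticFunction.moebius i : ℤ) : ℝ) =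
          ((if n = 1 then 1 else 0 : ℤ) : ℝ) := by
        rw [h6, ArithmeticFunction.one_apply]
      push_cast at h7
      rw [h7]
    rw [h5]
    split_ifs with h
    · rw [h]; simp
    · simp
  rw [Finset.sum_congr rfl h2] at h1
  rw [Finset.sum_ite_eq' (Ioc 0 N) 1 (fun _ => (1 : ℝ)), if_pos (by simp; omega)] at h1
  exact h1.symm

lemma abs_mu_le (j : ℕ) : |(ArithmeticFunction.moebius j : ℝ)| ≤ 1 := by
  have := ArithmeticFunction.abs_moebius_le_one (n := j)
  exact_mod_cast this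

lemma mu_mean (N : ℕ) (hN : 1 ≤ N) :
    |∑ j ∈ Ioc 0 N, (ArithmeticFunction.moebius j : ℝ) / j| ≤ 2 := by
  have h1 : ∑ j ∈ Ioc 0 N, (ArithmeticFunction.moebius j : ℝ) * ((N / j : ℕ) : ℝ) = 1 := by
    have h2 := ArithmeticFunction.sum_Ioc_mul_zeta_eq_sum ArithmeticFunction.moebius N
    have h3 : ∑ n ∈ Ioc 0 N, (ArithmeticFunction.moebius * (ArithmeticFunction.zeta :
        ArithmeticFunction ℤ)) n = 1 := by
      rw [ArithmeticFunction.moebius_mul_coe_zeta]
      simp only [ArithmeticFunction.one_apply]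
      rw [Finset.sum_ite_eq' (Ioc 0 N) 1 (fun _ => (1 : ℤ)), if_pos (by simp; omega)]
    rw [h3] at h2
    have h4 := congrArg (fun z : ℤ => (z : ℝ)) h2.symm
    push_cast at h4
    exact h4
  have hN0 : (0 : ℝ) < N := by exact_mod_cast hN
  have h4 : |∑ j ∈ Ioc 0 N, (ArithmeticFunction.moebius j : ℝ) *
      ((N : ℝ) / j - ((N / j : ℕ) : ℝ))| ≤ N := by
    refine (Finset.abs_sum_le_sum_abs _ _).trans ?_
    have h5 : ∀ j ∈ Ioc 0 N, |(ArithmeticFunction.moebius j : ℝ) *
      ((N : ℝ) / j - ((N / j : ℕ) : ℝ))| ≤ 1 := by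
      intro j hj
      rw [Finset.mem_Ioc] at hj
      rw [abs_mul]
      have h6 : ((N / j : ℕ) : ℝ) = (⌊(N : ℝ) / j⌋₊ : ℝ) := by
        rw [Nat.floor_div_natCast, Nat.floor_natCast]
      have h7 : (0 : ℝ) ≤ (N : ℝ) / j := by positivity
      have h8 := Nat.floor_le h7
      have h9 := Nat.lt_floor_add_one ((N : ℝ) / j)
      have h10 : |(N : ℝ) / j - ((N / j : ℕ) : ℝ)| ≤ 1 := by
        rw [h6, abs_le]
        constructor <;> linarith
      calc _ ≤ 1 * 1 := mul_le_mul (abs_mu_le j) h10 (abs_nonneg _) (by norm_num)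
        _ = 1 := by norm_num
    calc _ ≤ ∑ j ∈ Ioc 0 N, (1 : ℝ) := Finset.sum_le_sum h5
      _ = N := by simp
  have h11 : (N : ℝ) * ∑ j ∈ Ioc 0 N, (ArithmeticFunction.moebius j : ℝ) / j =
      1 + ∑ j ∈ Ioc 0 N, (ArithmeticFunction.moebius j : ℝ) *
      ((N : ℝ) / j - ((N / j : ℕ) : ℝ)) := by
    rw [← h1, Finset.mul_sum, ← Finset.sum_add_distrib]
    refine Finset.sum_congr rfl fun j _ => ?_
    ring
  have h12 : (N : ℝ) * |∑ j ∈ Ioc 0 N, (ArithmeticFunction.moebius j : ℝ) / j| ≤ N * 2 := by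
    calc (N : ℝ) * |∑ j ∈ Ioc 0 N, (ArithmeticFunction.moebius j : ℝ) / j|
        = |(N : ℝ) * ∑ j ∈ Ioc 0 N, (ArithmeticFunction.moebius j : ℝ) / j| := by
          rw [abs_mul, abs_of_pos hN0]
      _ ≤ |(1 : ℝ)| + |∑ j ∈ Ioc 0 N, (ArithmeticFunction.moebius j : ℝ) *
      ((N : ℝ) / j - ((N / j : ℕ) : ℝ))| := by
          rw [h11]
          exact abs_add_le _ _
      _ ≤ 1 + N := by
          rw [abs_one]
          linarith
      _ ≤ N * 2 := by
          have : (1 : ℝ) ≤ N := by exact_mod_cast hN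
          linarith
  exact le_of_mul_le_mul_left h12 hN0

lemma harm (u : ℝ) (hu : 1 ≤ u) :
    |∑ m ∈ Ioc 0 ⌊u⌋₊, (1 : ℝ) / m - Real.log u - Real.eulerMascheroniConstant| ≤ 2 / u := by
  obtain ⟨n, hn⟩ : ∃ n : ℕ, n = ⌊u⌋₊ := ⟨_, rfl⟩
  rw [← hn]
  have hn1 : 1 ≤ n := by
    rw [hn]
    exact Nat.le_floor (by simpa using hu)
  have hnu : (n : ℝ) ≤ u := by
    rw [hn]
    exact Nat.floor_le (by linarith)
  have hun : u < n + 1 := by
    rw [hn]
    exact Nat.lt_floor_add_one u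
  have hn0 : (0 : ℝ) < n := by exact_mod_cast hn1
  have hn1' : (1 : ℝ) ≤ n := by exact_mod_cast hn1
  have hH : ∑ m ∈ Ioc 0 n, (1 : ℝ) / m = (harmonic n : ℝ) := by
    rw [harmonic_eq_sum_Icc]
    push_cast
    have : Ioc 0 n = Icc 1 n := by
      ext x
      simp only [Finset.mem_Ioc, Finset.mem_Icc]
      omega
    rw [this]
    refine Finset.sum_congr rfl fun x _ => ?_
    rw [one_div]
  have h1 := Real.eulerMascheroniSeq_lt_eulerMascheroniConstant n
  have h2 := Real.eulerMascheroniConstant_lt_eulerMascheroniSeq' n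
  unfold Real.eulerMascheroniSeq at h1
  unfold Real.eulerMascheroniSeq' at h2
  rw [if_neg (by omega)] at h2
  have h3 : Real.log n ≤ Real.log u := Real.log_le_log hn0 hnu
  have h4 : Real.log u ≤ Real.log (n + 1) := Real.log_le_log (by linarith) hun.le
  have h5 : Real.log (n + 1) - Real.log n ≤ 1 / n := by
    rw [← Real.log_div (by linarith) hn0.ne']
    have h6 : (n + 1 : ℝ) / n = 1 + 1 / n := by field_simp
    rw [h6]
    have h7 := Real.log_le_sub_one_of_pos (show (0 : ℝ) < 1 + 1 / n by positivity)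
    linarith
  have h8 : (1 : ℝ) / n ≤ 2 / u := by
    rw [div_le_div_iff₀ hn0 (by linarith)]
    linarith
  rw [hH, abs_le]
  constructor <;> linarith

/-- the sums -/
noncomputable def fm (P : Finset ℕ) (t : ℝ) : ℝ :=
  ∑ j ∈ (Icc 1 ⌊t⌋₊).filter (fun j => ∀ p ∈ P, ¬ p ∣ j),
    (ArithmeticFunction.moebius j : ℝ) / j * Real.log (t / j)

lemma fm_lt (P : Finset ℕ) {t : ℝ} (ht : t < 1) : fm P t = 0 := by
  unfold fm
  have : ⌊t⌋₊ = 0 := Nat.floor_eq_zero.2 ht
  rw [this]
  simp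

lemma fm_empty (t : ℝ) : |fm ∅ t| ≤ 6 := by
  rcases lt_or_ge t 1 with ht | ht
  · rw [fm_lt ∅ ht]
    norm_num
  have ht0 : 0 < t := by linarith
  obtain ⟨N, hN⟩ : ∃ N : ℕ, N = ⌊t⌋₊ := ⟨_, rfl⟩
  have hN1 : 1 ≤ N := by
    rw [hN]
    exact Nat.le_floor (by simpa using ht)
  have hNt : (N : ℝ) ≤ t := by
    rw [hN]
    exact Nat.floor_le (by linarith)
  have hI : Icc 1 N = Ioc 0 N := by
    ext x
    simp only [Finset.mem_Ioc, Finset.mem_Icc]
    omega
  have hf : fm ∅ t = ∑ j ∈ Ioc 0 N, (ArithmeticFunction.moebius j : ℝ) / j * Real.log (t / j) := by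
    unfold fm
    rw [← hN, ← hI]
    simp
  have h1 := conv_one N hN1
  have h2 : (1 : ℝ) = fm ∅ t +
      Real.eulerMascheroniConstant * ∑ j ∈ Ioc 0 N, (ArithmeticFunction.moebius j : ℝ) / j +
      ∑ j ∈ Ioc 0 N, (ArithmeticFunction.moebius j : ℝ) / j *
        (∑ m ∈ Ioc 0 (N / j), (1 : ℝ) / m - Real.log (t / j) - Real.eulerMascheroniConstant) := by
    rw [hf, Finset.mul_sum, ← Finset.sum_add_distrib, ← Finset.sum_add_distrib]
    refine h1.symm.trans (Finset.sum_congr rfl fun j _ => ?_)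
    ring
  have h3 : |∑ j ∈ Ioc 0 N, (ArithmeticFunction.moebius j : ℝ) / j *
        (∑ m ∈ Ioc 0 (N / j), (1 : ℝ) / m - Real.log (t / j) -
          Real.eulerMascheroniConstant)| ≤ 2 := by
    refine (Finset.abs_sum_le_sum_abs _ _).trans ?_
    have h4 : ∀ j ∈ Ioc 0 N, |(ArithmeticFunction.moebius j : ℝ) / j *
        (∑ m ∈ Ioc 0 (N / j), (1 : ℝ) / m - Real.log (t / j) -
          Real.eulerMascheroniConstant)| ≤ 2 / t := by
      intro j hj
      rw [Finset.mem_Ioc] at hj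
      have hj0 : (0 : ℝ) < j := by exact_mod_cast hj.1
      have hjN : (j : ℝ) ≤ N := by exact_mod_cast hj.2
      have h5 : N / j = ⌊t / j⌋₊ := by
        rw [Nat.floor_div_natCast, ← hN]
      have h6 : 1 ≤ t / j := by
        rw [le_div_iff₀ hj0]
        linarith
      have h7 := harm (t / j) h6
      rw [← h5] at h7
      rw [abs_mul, abs_div, abs_of_pos hj0]
      calc |(ArithmeticFunction.moebius j : ℝ)| / j * |∑ m ∈ Ioc 0 (N / j), (1 : ℝ) / m -
            Real.log (t / j) - Real.eulerMascheroniConstant|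
          ≤ 1 / j * (2 / (t / j)) :=
            mul_le_mul (div_le_div_of_nonneg_right (abs_mu_le j) hj0.le) h7 (abs_nonneg _)
              (by positivity)
        _ = 2 / t := by field_simp
    calc _ ≤ ∑ j ∈ Ioc 0 N, (2 / t : ℝ) := Finset.sum_le_sum h4
      _ = N * (2 / t) := by simp
      _ ≤ t * (2 / t) := mul_le_mul_of_nonneg_right hNt (by positivity)
      _ = 2 := by field_simp
  have h8 := mu_mean N hN1
  have h9 := Real.eulerMascheroniConstant_lt_two_thirds
  have h10 := Real.one_half_lt_eulerMascheroniConstant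
  have h11 : |Real.eulerMascheroniConstant *
      ∑ j ∈ Ioc 0 N, (ArithmeticFunction.moebius j : ℝ) / j| ≤ 2 := by
    rw [abs_mul, abs_of_pos (by linarith)]
    calc _ ≤ 1 * 2 := mul_le_mul (by linarith) h8 (abs_nonneg _) (by norm_num)
      _ = 2 := by norm_num
  rw [abs_le] at h3 h11 ⊢
  constructor <;> linarith [h3.1, h3.2, h11.1, h11.2]

lemma moebius_mul_prime {p j : ℕ} (hp : p.Prime) (h : ¬ p ∣ j) :
    (ArithmeticFunction.moebius (p * j) : ℝ) = -(ArithmeticFunction.moebius j : ℝ) := by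
  have hc : Nat.Coprime p j := (Nat.Prime.coprime_iff_not_dvd hp).2 h
  rw [ArithmeticFunction.isMultiplicative_moebius.map_mul_of_coprime hc,
    ArithmeticFunction.moebius_apply_prime hp]
  push_cast
  ring

lemma moebius_mul_prime' {p j : ℕ} (hp : p.Prime) (h : p ∣ j) :
    ArithmeticFunction.moebius (p * j) = 0 := by
  apply ArithmeticFunction.moebius_eq_zero_of_not_squarefree
  intro hs
  obtain ⟨c, rfl⟩ := h
  have h1 : p * p ∣ p * (p * c) := ⟨c, by ring⟩
  exact hp.not_isUnit (hs p h1)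

lemma fm_rec {P : Finset ℕ} {p : ℕ} (hp : p.Prime) (hP : ∀ q ∈ P, q.Prime) (hpP : p ∉ P) (t : ℝ) :
    fm (insert p P) t = fm P t + 1 / p * fm (insert p P) (t / p) := by
  have hp0 : (0 : ℝ) < p := by exact_mod_cast hp.pos
  have h1 : fm P t = fm (insert p P) t +
      ∑ j ∈ ((Icc 1 ⌊t⌋₊).filter (fun j => ∀ q ∈ P, ¬ q ∣ j)).filter (fun j => p ∣ j),
        (ArithmeticFunction.moebius j : ℝ) / j * Real.log (t / j) := by
    unfold fm
    rw [← Finset.sum_filter_not_add_sum_filter _ (fun j => p ∣ j)]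
    congr 1
    rw [Finset.filter_filter]
    refine Finset.sum_congr ?_ fun _ _ => rfl
    ext j
    simp only [Finset.mem_filter, Finset.mem_insert, forall_eq_or_imp]
    tauto
  have h2 : ∑ j ∈ ((Icc 1 ⌊t⌋₊).filter (fun j => ∀ q ∈ P, ¬ q ∣ j)).filter (fun j => p ∣ j),
        (ArithmeticFunction.moebius j : ℝ) / j * Real.log (t / j) =
      ∑ j ∈ (Icc 1 ⌊t / p⌋₊).filter (fun j => ∀ q ∈ P, ¬ q ∣ j),
        (ArithmeticFunction.moebius (p * j) : ℝ) / ((p * j : ℕ) : ℝ) *
          Real.log (t / ((p * j : ℕ) : ℝ)) := by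
    refine Finset.sum_nbij' (fun j => j / p) (fun j => p * j) ?_ ?_ ?_ ?_ ?_
    · intro j hj
      simp only [Finset.mem_filter, Finset.mem_Icc] at hj ⊢
      obtain ⟨⟨⟨h3, h4⟩, h5⟩, c, rfl⟩ := hj
      rw [Nat.mul_div_cancel_left _ hp.pos, Nat.floor_div_natCast]
      refine ⟨⟨?_, ?_⟩, ?_⟩
      · rcases Nat.eq_zero_or_pos c with h | h
        · subst h; simp at h3
        · exact h
      · rw [Nat.le_div_iff_mul_le hp.pos, mul_comm]
        exact h4
      · intro q hq hqc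
        exact h5 q hq (Dvd.dvd.mul_left hqc p)
    · intro j hj
      simp only [Finset.mem_filter, Finset.mem_Icc] at hj ⊢
      obtain ⟨⟨h3, h4⟩, h5⟩ := hj
      rw [Nat.floor_div_natCast, Nat.le_div_iff_mul_le hp.pos, mul_comm] at h4
      refine ⟨⟨⟨?_, h4⟩, ?_⟩, Dvd.intro _ rfl⟩
      · exact Nat.mul_pos hp.pos h3
      · intro q hq hqc
        rcases (hP q hq).dvd_mul.1 hqc with h6 | h6
        · have h7 := (Nat.prime_dvd_prime_iff_eq (hP q hq) hp).1 h6
          exact hpP (h7 ▸ hq)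
        · exact h5 q hq h6
    · intro j hj
      simp only [Finset.mem_filter] at hj
      exact Nat.mul_div_cancel' hj.2
    · intro j _
      exact Nat.mul_div_cancel_left _ hp.pos
    · intro j hj
      simp only [Finset.mem_filter] at hj
      rw [Nat.mul_div_cancel' hj.2]
  have h3 : ∑ j ∈ (Icc 1 ⌊t / p⌋₊).filter (fun j => ∀ q ∈ P, ¬ q ∣ j),
        (ArithmeticFunction.moebius (p * j) : ℝ) / ((p * j : ℕ) : ℝ) *
          Real.log (t / ((p * j : ℕ) : ℝ)) = -(1 / p * fm (insert p P) (t / p)) := by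
    unfold fm
    rw [← Finset.sum_filter_add_sum_filter_not _ (fun j => p ∣ j), Finset.filter_filter,
      Finset.filter_filter, Finset.sum_eq_zero, zero_add, Finset.mul_sum, ← Finset.sum_neg_distrib]
    · refine Finset.sum_congr ?_ ?_
      · ext j
        simp only [Finset.mem_filter, Finset.mem_insert, forall_eq_or_imp]
        tauto
      · intro j hj
        simp only [Finset.mem_filter, Finset.mem_Icc, Finset.mem_insert, forall_eq_or_imp] at hj
        have hj0 : (0 : ℝ) < j := by exact_mod_cast hj.1.1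
        rw [moebius_mul_prime hp (by tauto)]
        push_cast
        rw [div_div]
        field_simp
    · intro j hj
      simp only [Finset.mem_filter] at hj
      rw [moebius_mul_prime' hp hj.2.2]
      simp
  rw [h1, h2, h3]
  ring

lemma fm_le (P : Finset ℕ) (hP : ∀ q ∈ P, q.Prime) :
    ∀ t : ℝ, |fm P t| ≤ 6 * ∏ p ∈ P, (1 - (p : ℝ)⁻¹)⁻¹ := by
  induction P using Finset.induction_on with
  | empty =>
    intro t
    simpa using fm_empty t
  | insert p P hpP ih =>
    have hp := hP p (Finset.mem_insert_self _ _)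
    have hP' : ∀ q ∈ P, q.Prime := fun q hq => hP q (Finset.mem_insert_of_mem hq)
    have ih' := ih hP'
    have hp2 : (2 : ℝ) ≤ p := by exact_mod_cast hp.two_le
    obtain ⟨B, hB⟩ : ∃ B : ℝ, B = 6 * ∏ q ∈ P, (1 - (q : ℝ)⁻¹)⁻¹ := ⟨_, rfl⟩
    rw [← hB] at ih'
    have hB0 : 0 ≤ B := (abs_nonneg _).trans (ih' 0)
    have hpi : (p : ℝ)⁻¹ ≤ 1 / 2 := by
      rw [one_div]
      exact inv_anti₀ (by norm_num) hp2
    have hpi0 : 0 < (p : ℝ)⁻¹ := by positivity
    rw [Finset.prod_insert hpP, mul_left_comm, ← hB]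
    have key : ∀ n : ℕ, ∀ t : ℝ, t < (n : ℝ) + 1 →
        |fm (insert p P) t| ≤ (1 - (p : ℝ)⁻¹)⁻¹ * B := by
      intro n
      induction n with
      | zero =>
        intro t ht
        rw [fm_lt _ (by simpa using ht), abs_zero]
        have : 0 < 1 - (p : ℝ)⁻¹ := by linarith
        positivity
      | succ n ihn =>
        intro t ht
        rcases lt_or_ge t 1 with h1 | h1
        · rw [fm_lt _ h1, abs_zero]
          have : 0 < 1 - (p : ℝ)⁻¹ := by linarith
          positivity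
        rw [fm_rec hp hP' hpP]
        have h2 : t / p < (n : ℝ) + 1 := by
          rw [div_lt_iff₀ (by linarith)]
          push_cast at ht
          have hn : (0 : ℝ) ≤ n := Nat.cast_nonneg n
          nlinarith
        have h3 := ihn (t / p) h2
        calc |fm P t + 1 / p * fm (insert p P) (t / p)|
            ≤ |fm P t| + |1 / p * fm (insert p P) (t / p)| := abs_add_le _ _
          _ ≤ B + (p : ℝ)⁻¹ * ((1 - (p : ℝ)⁻¹)⁻¹ * B) := by
              rw [abs_mul, one_div, abs_of_pos hpi0]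
              exact add_le_add (ih' t) (mul_le_mul_of_nonneg_left h3 hpi0.le)
          _ = (1 - (p : ℝ)⁻¹)⁻¹ * B := by
              have h4 : 1 - (p : ℝ)⁻¹ ≠ 0 := by linarith
              have h5 : (1 - (p : ℝ)⁻¹)⁻¹ * (1 - (p : ℝ)⁻¹) = 1 := inv_mul_cancel₀ h4
              linear_combination (-B) * h5
    intro t
    refine key ⌊t⌋₊ t ?_
    exact Nat.lt_floor_add_one t

theorem mob : Pool.Agent.Y766.R10.S_MOB := by
  refine ⟨6, by norm_num, fun g hg t ht => ?_⟩
  have h1 : (Icc 1 ⌊t⌋₊).filter (fun j => Nat.Coprime j g) =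
      (Icc 1 ⌊t⌋₊).filter (fun j => ∀ p ∈ g.primeFactors, ¬ p ∣ j) := by
    refine Finset.filter_congr fun j _ => ?_
    constructor
    · intro h p hp hpj
      have hp' := Nat.mem_primeFactors.1 hp
      exact Nat.Prime.not_coprime_iff_dvd.2 ⟨p, hp'.1, hpj, hp'.2.1⟩ h
    · intro h
      by_contra hc
      obtain ⟨p, hp, hpj, hpg⟩ := Nat.Prime.not_coprime_iff_dvd.1 hc
      exact h p (Nat.mem_primeFactors.2 ⟨hp, hpg, by omega⟩) hpj
  rw [h1]
  have h2 := fm_le g.primeFactors (fun q hq => Nat.prime_of_mem_primeFactors hq) t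
  unfold fm at h2
  refine h2.trans (le_of_eq ?_)
  congr 1
  have h3 := Nat.totient_eq_mul_prod_factors g
  have h4 : ((Nat.totient g : ℕ) : ℝ) = g * ∏ p ∈ g.primeFactors, (1 - (p : ℝ)⁻¹) := by
    have h4 := congrArg (fun q : ℚ => (q : ℝ)) h3
    push_cast at h4
    exact h4
  have hg0 : (0 : ℝ) < g := by exact_mod_cast hg
  rw [Finset.prod_inv_distrib, h4]
  have h5 : ∏ p ∈ g.primeFactors, (1 - (p : ℝ)⁻¹) ≠ 0 := by
    rw [Finset.prod_ne_zero_iff]
    intro p hp
    have hp2 : (2 : ℝ) ≤ p := by exact_mod_cast (Nat.prime_of_mem_primeFactors hp).two_le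
    have : (p : ℝ)⁻¹ ≤ 1 / 2 := by
      rw [one_div]
      exact inv_anti₀ (by norm_num) hp2
    linarith
  field_simp

end Pool.Agent.Y279.R10
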